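import Pool.Agent.Y817.BC.Stm

/-!
# The hierarchical labels of an odometer satisfy the rules
-/

set_option autoImplicit false

namespace Pool.Agent.Y168.BC.Hl

open Pool.Agent.Y817.BC

section
variable (D : Odo) (x z : ℤ)

theorem ty_def : (D.hl x z).ty = if D.lev x = D.lev z then .C else
    if D.lev x = D.lev z + 1 then .V1 else
    if D.lev z < D.lev x then .V2 else if D.lev z = D.lev x + 1 then .H1 else .H2 := rfl

theorem ty_C : (D.hl x z).ty = .C ↔ D.lev x = D.lev z := by
  rw [ty_def]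
  split_ifs <;> simp_all

theorem ty_V1 : (D.hl x z).ty = .V1 ↔ D.lev x = D.lev z + 1 := by
  rw [ty_def]
  split_ifs <;> simp_all

theorem ty_V2 : (D.hl x z).ty = .V2 ↔ D.lev z + 2 ≤ D.lev x := by
  rw [ty_def]
  split_ifs <;> simp <;> omega

theorem ty_H1 : (D.hl x z).ty = .H1 ↔ D.lev z = D.lev x + 1 := by
  rw [ty_def]
  split_ifs <;> simp <;> omega

theorem ty_H2 : (D.hl x z).ty = .H2 ↔ D.lev x + 2 ≤ D.lev z := by
  rw [ty_def]
  split_ifs <;> simp <;> omega

theorem ty_isH : (D.hl x z).ty.isH = true ↔ D.lev x < D.lev z := by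
  rw [ty_def]
  split_ifs <;> simp [Ty.isH] <;> omega

theorem ty_isV : (D.hl x z).ty.isV = true ↔ D.lev z < D.lev x := by
  rw [ty_def]
  split_ifs <;> simp [Ty.isV] <;> omega

theorem p_true : (D.hl x z).p = true ↔ D.lev x = 0 := by
  show decide (D.lev x = 0) = true ↔ _
  rw [decide_eq_true_iff]

theorem p_false : (D.hl x z).p = false ↔ D.lev x ≠ 0 := by
  show decide (D.lev x = 0) = false ↔ _
  rw [decide_eq_false_iff_not]

theorem q_true : (D.hl x z).q = true ↔ D.lev z = 0 := by
  show decide (D.lev z = 0) = true ↔ _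
  rw [decide_eq_true_iff]

theorem q_false : (D.hl x z).q = false ↔ D.lev z ≠ 0 := by
  show decide (D.lev z = 0) = false ↔ _
  rw [decide_eq_false_iff_not]

theorem sg_lev {x : ℤ} {l : ℕ} (h : D.lev x = l) : D.sg x l = if D.ori x then 0 else 2 := by
  rw [← h]
  exact D.sg_eq x

theorem sg_lev' {x : ℤ} {l : ℕ} (h : D.lev x = l) : D.sg x l = 0 ∨ D.sg x l = 2 := by
  rw [sg_lev D h]
  split_ifs
  · exact Or.inl rfl
  · exact Or.inr rfl

theorem cell : (D.hl x z).Cell where
  pq := by
    rw [p_true, q_true, ty_C]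
    omega
  pnq := by
    rw [p_true, q_false, ty_isH]
    omega
  npq := by
    rw [p_false, q_true, ty_isV]
    omega
  s_C := by
    rw [ty_C]
    intro h
    exact sg_lev D h
  s_V1 := by
    rw [ty_V1]
    intro h
    exact D.sg_one x _ h
  s_V2 := by
    rw [ty_V2]
    intro h
    exact D.sg_three x _ h
  s'_C := by
    rw [ty_C]
    intro h
    exact sg_lev D h.symm
  s'_H1 := by
    rw [ty_H1]
    intro h
    exact D.sg_one z _ h
  s'_H2 := by
    rw [ty_H2]
    intro h
    exact D.sg_three z _ h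
  r_V1 := by
    rw [p_false, ty_V1]
    intro _ h
    exact sg_lev' D (l := D.lev x - 1) (by omega)
  r_C := by
    rw [p_false, ty_C]
    intro h0 h
    exact D.sg_one z (D.lev x - 1) (by omega)
  r_H := by
    rw [p_false, ty_isH]
    intro h0 h
    exact D.sg_three z (D.lev x - 1) (by omega)
  r'_H1 := by
    rw [q_false, ty_H1]
    intro _ h
    exact sg_lev' D (l := D.lev z - 1) (by omega)
  r'_C := by
    rw [q_false, ty_C]
    intro h0 h
    exact D.sg_one x (D.lev z - 1) (by omega)
  r'_V := by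
    rw [q_false, ty_isV]
    intro h0 h
    exact D.sg_three x (D.lev z - 1) (by omega)

theorem hor : HL.Hor (D.hl x z) (D.hl (x + 1) z) where
  p := by
    have h := D.lev_succ x
    by_cases h0 : D.lev x = 0
    · rw [(p_true D x z).2 h0, (p_false D (x + 1) z).2 (fun h1 => h.1 h1 h0)]
      rfl
    · rw [(p_false D x z).2 h0, (p_true D (x + 1) z).2 (h.2 h0)]
      rfl
  q := rfl
  u := rfl
  s := by
    show D.sg (x + 1) (D.lev z) = if (D.hl x z).ty.isH = true then D.sg x (D.lev z) else
      D.sg x (D.lev z) + 1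
    rw [D.sg_succ]
    by_cases h : D.lev x < D.lev z
    · rw [if_pos ((ty_isH D x z).2 h), if_neg (by omega)]
    · rw [if_neg (fun h1 => h ((ty_isH D x z).1 h1)), if_pos (by omega)]
  r' := by
    rw [q_false]
    intro h0
    show D.sg (x + 1) (D.lev z - 1) = if (D.hl x z).ty = .H2 then D.sg x (D.lev z - 1) else
      D.sg x (D.lev z - 1) + 1
    rw [D.sg_succ]
    by_cases h : D.lev x + 2 ≤ D.lev z
    · rw [if_pos ((ty_H2 D x z).2 h), if_neg (by omega)]
    · rw [if_neg (fun h1 => h ((ty_H2 D x z).1 h1)), if_pos (by omega)]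

theorem ver : HL.Ver (D.hl x z) (D.hl x (z + 1)) where
  q := by
    have h := D.lev_succ z
    by_cases h0 : D.lev z = 0
    · rw [(q_true D x z).2 h0, (q_false D x (z + 1)).2 (fun h1 => h.1 h1 h0)]
      rfl
    · rw [(q_false D x z).2 h0, (q_true D x (z + 1)).2 (h.2 h0)]
      rfl
  p := rfl
  o := rfl
  s' := by
    show D.sg (z + 1) (D.lev x) = if (D.hl x z).ty.isV = true then D.sg z (D.lev x) else
      D.sg z (D.lev x) + 1
    rw [D.sg_succ]
    by_cases h : D.lev z < D.lev x
    · rw [if_pos ((ty_isV D x z).2 h), if_neg (by omega)]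
    · rw [if_neg (fun h1 => h ((ty_isV D x z).1 h1)), if_pos (by omega)]
  r := by
    rw [p_false]
    intro h0
    show D.sg (z + 1) (D.lev x - 1) = if (D.hl x z).ty = .V2 then D.sg z (D.lev x - 1) else
      D.sg z (D.lev x - 1) + 1
    rw [D.sg_succ]
    by_cases h : D.lev z + 2 ≤ D.lev x
    · rw [if_pos ((ty_V2 D x z).2 h), if_neg (by omega)]
    · rw [if_neg (fun h1 => h ((ty_V2 D x z).1 h1)), if_pos (by omega)]

end

theorem t : StmHl2 := fun D x z => ⟨cell D x z, hor D x z, ver D x z⟩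

end Pool.Agent.Y168.BC.Hl
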