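import Pool.Agent.Y817.BC.Stm

/-!
# The odometer
-/

set_option autoImplicit false

namespace Pool.Agent.Y168.BC

open Pool.Agent.Y817.BC

/-- approximations of the dyadic integer `-1/15` -/
def aa (k : ℕ) : ℤ := (16 ^ (k + 1) - 1) / 15

theorem aa_eq (k : ℕ) : 15 * aa k + 1 = 16 ^ (k + 1) := by
  have h1 : (15 : ℤ) ∣ 16 ^ (k + 1) - 1 := by
    have h2 := sub_dvd_pow_sub_pow (16 : ℤ) 1 (k + 1)
    rw [one_pow] at h2
    norm_num at h2
    exact h2
  rw [aa, Int.mul_ediv_cancel' h1]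
  ring

/-- the level -/
def lv (x : ℤ) : ℕ := padicValInt 2 (15 * x + 1)

theorem lv_iff (x : ℤ) (k : ℕ) : (2 : ℤ) ^ k ∣ 15 * x + 1 ↔ k ≤ lv x := by
  have h := padicValInt_dvd_iff (p := 2) k (15 * x + 1)
  rw [Nat.cast_ofNat] at h
  rw [h, lv]
  constructor
  · rintro (h1 | h1)
    · omega
    · exact h1
  · exact Or.inr

theorem dvd_iff (x : ℤ) {k l : ℕ} (h : k ≤ 4 * l + 4) : (2 : ℤ) ^ k ∣ x - aa l ↔ k ≤ lv x := by
  rw [← lv_iff]
  have h1 : (2 : ℤ) ^ k ∣ 16 ^ (l + 1) := by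
    have h2 : (16 : ℤ) ^ (l + 1) = 2 ^ (4 * l + 4) := by
      rw [show (16 : ℤ) = 2 ^ 4 by norm_num, ← pow_mul]
      congr 1
    rw [h2]
    exact pow_dvd_pow 2 h
  have h2 : 15 * x + 1 = 15 * (x - aa l) + 16 ^ (l + 1) := by
    rw [← aa_eq]
    ring
  rw [h2]
  constructor
  · intro h3
    exact dvd_add (Dvd.dvd.mul_left h3 15) h1
  · intro h3
    have h4 : (2 : ℤ) ^ k ∣ 15 * (x - aa l) := (dvd_add_left h1).1 h3
    have h5 : IsCoprime ((2 : ℤ) ^ k) 15 := by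
      apply IsCoprime.pow_left
      rw [Int.isCoprime_iff_gcd_eq_one]
      decide
    exact h5.dvd_of_dvd_mul_left h4

/-- the residue modulo four -/
def f4 (m : ℤ) : Fin 4 := ⟨(m % 4).toNat, by omega⟩

theorem f4_succ (m : ℤ) : f4 (m + 1) = f4 m + 1 := by
  apply Fin.ext
  rw [Fin.val_add]
  simp only [f4]
  show ((m + 1) % 4).toNat = ((m % 4).toNat + 1) % 4
  omega

theorem f4_congr {m m' : ℤ} (h : (4 : ℤ) ∣ m - m') : f4 m = f4 m' := by
  apply Fin.ext
  simp only [f4]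
  omega

/-- the quotient -/
def qu (x : ℤ) (l : ℕ) : ℤ := (aa l - x) / 2 ^ l

/-- the index of the next item -/
def sgn (x : ℤ) (l : ℕ) : Fin 4 := f4 (-qu x l - 1)

theorem pow_pos' (l : ℕ) : (0 : ℤ) < 2 ^ l := by positivity

theorem sgn_of_dvd {x : ℤ} {l : ℕ} {y : ℤ} (h : x - aa l = 2 ^ l * y) : sgn x l = f4 (y - 1) := by
  have h1 : aa l - x = 2 ^ l * (-y) := by
    rw [mul_neg, ← h]
    ring
  rw [sgn, qu, h1, Int.mul_ediv_cancel_left _ (pow_pos' l).ne', neg_neg]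

theorem sgn_succ (x : ℤ) (l : ℕ) : sgn (x + 1) l = if l ≤ lv x then sgn x l + 1 else sgn x l := by
  have hp := pow_pos' l
  split_ifs with h
  · obtain ⟨y, hy⟩ := (dvd_iff x (k := l) (l := l) (by omega)).2 h
    rw [sgn_of_dvd hy, ← f4_succ, sgn, qu]
    congr 1
    have h1 : aa l - (x + 1) = 2 ^ l * (-y - 1) + (2 ^ l - 1) := by
      have : aa l - x = - (2 ^ l * y) := by rw [← hy]; ring
      linear_combination this
    rw [h1, Int.mul_add_ediv_left _ _ hp.ne', Int.ediv_eq_zero_of_lt (by omega) (by omega)]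
    ring
  · have h0 : ¬ (2 : ℤ) ^ l ∣ x - aa l := fun h1 => h ((dvd_iff x (by omega)).1 h1)
    have key : qu (x + 1) l = qu x l := by
      rw [qu, qu]
      have h1 := Int.emod_add_mul_ediv (aa l - x) (2 ^ l)
      have h2 := Int.emod_nonneg (aa l - x) hp.ne'
      have h3 := Int.emod_lt_of_pos (aa l - x) hp
      have h4 : (aa l - x) % 2 ^ l ≠ 0 := by
        intro h5
        apply h0
        have h6 := Int.dvd_of_emod_eq_zero h5
        rw [← neg_sub]
        exact (dvd_neg).2 h6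
      generalize (aa l - x) % 2 ^ l = r at h1 h2 h3 h4
      generalize (aa l - x) / 2 ^ l = q at h1
      have h5 : aa l - (x + 1) = 2 ^ l * q + (r - 1) := by
        linear_combination -h1
      rw [h5, Int.mul_add_ediv_left _ _ hp.ne', Int.ediv_eq_zero_of_lt (by omega) (by omega),
        add_zero]
    rw [sgn, sgn, key]

theorem sgn_lev (x : ℤ) : sgn x (lv x) = 0 ∨ sgn x (lv x) = 2 := by
  obtain ⟨y, hy⟩ := (dvd_iff x (k := lv x) (l := lv x) (by omega)).2 le_rfl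
  rw [sgn_of_dvd hy]
  have h1 : ¬ (2 : ℤ) ^ (lv x + 1) ∣ x - aa (lv x) := fun h => by
    have := (dvd_iff x (by omega)).1 h
    omega
  have h2 : ¬ (2 : ℤ) ∣ y := by
    rintro ⟨z, hz⟩
    apply h1
    refine ⟨z, ?_⟩
    rw [hy, hz, pow_succ]
    ring
  have h3 : y % 4 = 1 ∨ y % 4 = 3 := by omega
  rcases h3 with h3 | h3
  · left
    apply Fin.ext
    simp only [f4]
    show ((y - 1) % 4).toNat = 0
    omega
  · right
    apply Fin.ext
    simp only [f4]
    show ((y - 1) % 4).toNat = 2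
    omega

theorem sgn_one {x : ℤ} {l : ℕ} (h : lv x = l + 1) : sgn x l = 1 := by
  obtain ⟨y, hy⟩ := (dvd_iff x (k := l) (l := l) (by omega)).2 (by omega)
  obtain ⟨z, hz⟩ := (dvd_iff x (k := l + 1) (l := l) (by omega)).2 (by omega)
  have hn : ¬ (2 : ℤ) ^ (l + 2) ∣ x - aa l := fun h1 => by
    have := (dvd_iff x (by omega)).1 h1
    omega
  rw [sgn_of_dvd hy]
  have h1 : y = 2 * z := by
    apply mul_left_cancel₀ (pow_pos' l).ne'
    rw [← hy, hz, pow_succ]
    ring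
  have h2 : ¬ (2 : ℤ) ∣ z := by
    rintro ⟨w, hw⟩
    apply hn
    refine ⟨w, ?_⟩
    rw [hz, hw, pow_succ, pow_succ, pow_succ]
    ring
  apply Fin.ext
  simp only [f4]
  show ((y - 1) % 4).toNat = 1
  omega

theorem sgn_three {x : ℤ} {l : ℕ} (h : l + 2 ≤ lv x) : sgn x l = 3 := by
  obtain ⟨y, hy⟩ := (dvd_iff x (k := l + 2) (l := l) (by omega)).2 h
  have h1 : x - aa l = 2 ^ l * (4 * y) := by
    rw [hy, pow_add]
    ring
  rw [sgn_of_dvd h1]
  apply Fin.ext
  simp only [f4]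
  show ((4 * y - 1) % 4).toNat = 3
  omega

/-- the position -/
def ps (x : ℤ) (k : ℕ) : ℕ := ((x - aa k) % 2 ^ k).toNat

theorem ps_cast (x : ℤ) (k : ℕ) : ((ps x k : ℕ) : ℤ) = (x - aa k) % 2 ^ k := by
  rw [ps, Int.toNat_of_nonneg (Int.emod_nonneg _ (pow_pos' k).ne')]

theorem ps_lt (x : ℤ) (k : ℕ) : ps x k < 2 ^ k := by
  have h1 := Int.emod_lt_of_pos (x - aa k) (pow_pos' k)
  rw [← ps_cast] at h1
  exact_mod_cast h1

theorem ps_succ (x : ℤ) (k : ℕ) :
    ps (x + 1) k = if ps x k + 1 = 2 ^ k then 0 else ps x k + 1 := by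
  have hp := pow_pos' k
  have h1 := Int.emod_add_mul_ediv (x - aa k) (2 ^ k)
  rw [← ps_cast] at h1
  have h2 := ps_lt x k
  have h3 : ((ps (x + 1) k : ℕ) : ℤ) = ((if ps x k + 1 = 2 ^ k then 0 else ps x k + 1 : ℕ) : ℤ) := by
    rw [ps_cast]
    have h4 : x + 1 - aa k = ((ps x k : ℕ) + 1) + 2 ^ k * ((x - aa k) / 2 ^ k) := by
      linear_combination -h1
    rw [h4, Int.add_mul_emod_self_left]
    split_ifs with h
    · have h5 : ((ps x k : ℕ) : ℤ) + 1 = 2 ^ k := by exact_mod_cast h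
      rw [h5, Int.emod_self]
      rfl
    · have h5 : ((ps x k : ℕ) : ℤ) + 1 < 2 ^ k := by
        have : ps x k + 1 < 2 ^ k := by omega
        exact_mod_cast this
      rw [Int.emod_eq_of_lt (by positivity) h5]
      push_cast
      ring
  exact_mod_cast h3

theorem ps_zero (x : ℤ) (k : ℕ) : ps x k = 0 ↔ k ≤ lv x := by
  rw [← dvd_iff x (k := k) (l := k) (by omega), Int.dvd_iff_emod_eq_zero, ← ps_cast]
  norm_cast

theorem ps_dvd {x : ℤ} {k i : ℕ} (h : i ≤ k) : 2 ^ i ∣ ps x k ↔ i ≤ lv x := by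
  rw [← dvd_iff x (k := i) (l := k) (by omega)]
  have h1 := Int.emod_add_mul_ediv (x - aa k) (2 ^ k)
  rw [← ps_cast] at h1
  have h2 : (2 : ℤ) ^ i ∣ 2 ^ k * ((x - aa k) / 2 ^ k) := Dvd.dvd.mul_right (pow_dvd_pow 2 h) _
  rw [← h1, dvd_add_left h2]
  norm_cast

theorem lv_ps {x : ℤ} {k : ℕ} (h : ps x k ≠ 0) : lv x = padicValNat 2 (ps x k) := by
  have hlt : lv x < k := by
    by_contra hcon
    exact h ((ps_zero x k).2 (by omega))
  apply le_antisymm
  · exact (padicValNat_dvd_iff_le h).1 ((ps_dvd hlt.le).2 le_rfl)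
  · have h1 : 2 ^ padicValNat 2 (ps x k) ∣ ps x k := pow_padicValNat_dvd
    have h2 : padicValNat 2 (ps x k) < k := by
      have h3 := (Nat.le_of_dvd (Nat.pos_of_ne_zero h) h1).trans_lt (ps_lt x k)
      exact (Nat.pow_lt_pow_iff_right (by norm_num)).1 h3
    exact (ps_dvd h2.le).1 h1

theorem per_lv {x m q : ℤ} (h : (2 : ℤ) ^ (lv x + 1) ∣ m) : lv (x + m * q) = lv x := by
  have h1 : ∀ i ≤ lv x + 1, (i ≤ lv (x + m * q) ↔ i ≤ lv x) := by
    intro i hi
    rw [← lv_iff, ← lv_iff]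
    have h2 : 15 * (x + m * q) + 1 = 15 * x + 1 + m * (15 * q) := by ring
    rw [h2]
    exact dvd_add_left (((pow_dvd_pow 2 hi).trans h).mul_right _)
  have h2 := (h1 (lv x) (by omega)).2 le_rfl
  have h3 : ¬ (lv x + 1 ≤ lv (x + m * q)) := fun h => by
    have := (h1 (lv x + 1) le_rfl).1 h
    omega
  omega

theorem per_sgn {x m q : ℤ} {l : ℕ} (h : (2 : ℤ) ^ (l + 2) ∣ m) : sgn (x + m * q) l = sgn x l := by
  obtain ⟨y, hy⟩ := h
  rw [sgn, sgn]
  apply f4_congr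
  rw [qu, qu]
  have h1 : aa l - (x + m * q) = (aa l - x) + 2 ^ l * (-(4 * y * q)) := by
    rw [hy, pow_add]
    ring
  rw [h1, Int.add_mul_ediv_left _ _ (pow_pos' l).ne']
  exact ⟨y * q, by ring⟩

theorem per_ps {x m q : ℤ} {l : ℕ} (h : (2 : ℤ) ^ l ∣ m) : ps (x + m * q) l = ps x l := by
  obtain ⟨y, hy⟩ := h
  rw [ps, ps]
  have h1 : x + m * q - aa l = (x - aa l) + 2 ^ l * (y * q) := by
    rw [hy]
    ring
  rw [h1, Int.add_mul_emod_self_left]

/-- the odometer -/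
def odo : Odo where
  lev := lv
  ori := fun x => decide (sgn x (lv x) = 0)
  sg := sgn
  pos := ps
  sg_succ := sgn_succ
  sg_eq := by
    intro x
    rcases sgn_lev x with h | h
    · rw [h]
      simp
    · rw [h]
      simp
  sg_one := fun x l h => sgn_one h
  sg_three := fun x l h => sgn_three h
  lev_succ := by
    intro x
    have h1 := lv_iff x 1
    have h2 := lv_iff (x + 1) 1
    rw [pow_one] at h1 h2
    constructor
    · intro h3 h4
      have h5 : ¬ (2 : ℤ) ∣ 15 * x + 1 := fun h => by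
        have := h1.1 h
        omega
      have h6 : ¬ (2 : ℤ) ∣ 15 * (x + 1) + 1 := fun h => by
        have := h2.1 h
        omega
      omega
    · intro h3
      by_contra h4
      have h5 := h1.2 (by omega)
      have h6 := h2.2 (by omega)
      omega
  pos_lt := ps_lt
  pos_succ := ps_succ
  pos_zero := ps_zero
  lev_pos := fun x k h => lv_ps h
  per := by
    intro x l
    refine ⟨2 ^ (l + lv x + 2), by positivity, fun q => ?_⟩
    have hc : (((2 ^ (l + lv x + 2) : ℕ)) : ℤ) = 2 ^ (l + lv x + 2) := by push_cast; rfl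
    rw [hc]
    have h1 : lv (x + 2 ^ (l + lv x + 2) * q) = lv x := per_lv (pow_dvd_pow 2 (by omega))
    refine ⟨h1, ?_, fun l' hl' => ⟨per_sgn (pow_dvd_pow 2 (by omega)),
      per_ps (pow_dvd_pow 2 (by omega))⟩⟩
    rw [h1, per_sgn (pow_dvd_pow 2 (by omega))]

theorem t : StmOdo := ⟨odo⟩

end Pool.Agent.Y168.BC
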