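import Pool.Agent.Y817.BC.Stm

/-!
# The labeling of a coordinate function
-/

set_option autoImplicit false

namespace Pool.Agent.Y168.BC.Ps

open Pool.Agent.Y817.BC

theorem nn_le {v : G} {n : ℕ} : nn v ≤ n ↔ ∀ i, (v i).natAbs ≤ n := by
  simp [nn]

/-- an additive function which separates close points -/
def key (d : G) : ℤ := 10000 * d 0 + 100 * d 1 + d 2

theorem key_inj {d d' : G} (h : key d = key d') (hn : nn (d - d') ≤ 20) : d = d' := by
  rw [nn_le] at hn
  have h0 := hn 0
  have h1 := hn 1
  have h2 := hn 2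
  simp only [Pi.sub_apply] at h0 h1 h2
  simp only [key] at h
  have e2 : d 2 = d' 2 := by omega
  have e1 : d 1 = d' 1 := by omega
  have e0 : d 0 = d' 0 := by omega
  funext i
  fin_cases i
  · exact e0
  · exact e1
  · exact e2

open Classical in
/-- the point with the minimal key -/
noncomputable def mn (P : G → Prop) : G :=
  if H : ∃ d, P d ∧ ∀ d', P d' → key d ≤ key d' then H.choose else 0

theorem mn_spec {P : G → Prop} (hne : ∃ d, P d) (hP : ∀ d, P d → nn d ≤ 10) :
    P (mn P) ∧ ∀ d', P d' → key (mn P) ≤ key d' := by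
  classical
  have H : ∃ d, P d ∧ ∀ d', P d' → key d ≤ key d' := by
    obtain ⟨d0, hd0⟩ := hne
    have hmem : ∀ d, P d → d ∈ (Fintype.piFinset fun _ : Fin 3 => Finset.Icc (-10 : ℤ) 10).filter
        P := by
      intro d hd
      rw [Finset.mem_filter, Fintype.mem_piFinset]
      refine ⟨fun i => ?_, hd⟩
      have := nn_le.1 (hP d hd) i
      rw [Finset.mem_Icc]
      omega
    obtain ⟨d, h1, h2⟩ := Finset.exists_min_image _ key ⟨d0, hmem d0 hd0⟩
    exact ⟨d, (Finset.mem_filter.1 h1).2, fun d' hd' => h2 d' (hmem d' hd')⟩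
  rw [mn, dif_pos H]
  exact H.choose_spec

/-- the pointer -/
noncomputable def ptr (h : G → G) (i : Fin 3) : G := mn fun d => nn d ≤ 10 ∧ h d = h 0 + e i

/-- the code of a vector -/
def code (d : G) : Fin 3 → Fin 21 := fun i =>
  if h : (d i + 10).toNat < 21 then ⟨(d i + 10).toNat, h⟩ else 0

theorem toG_code {d : G} (hd : nn d ≤ 10) : toG (code d) = d := by
  rw [nn_le] at hd
  funext i
  have := hd i
  have h : (d i + 10).toNat < 21 := by omega
  simp only [toG, code, dif_pos h]
  omega

theorem ptr_spec {h : G → G} (hh : Nice h) (g : G) (i : Fin 3) :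
    nn (ptr (fun y => h (y + g)) i) ≤ 10 ∧ h (ptr (fun y => h (y + g)) i + g) = h g + e i ∧
      ∀ y, h y = h g + e i → key (ptr (fun y => h (y + g)) i + g) ≤ key y := by
  have hadd : ∀ a b : G, key (a + b) = key a + key b := by
    intro a b
    simp only [key, Pi.add_apply]
    ring
  obtain ⟨h1, h2⟩ := mn_spec (P := fun d => nn d ≤ 10 ∧ h (d + g) = h (0 + g) + e i) (by
    obtain ⟨y, hy⟩ := hh.1 g i
    refine ⟨y - g, hh.2 g y i (Or.inr hy), ?_⟩
    rw [sub_add_cancel, zero_add]
    exact hy) (fun d hd => hd.1)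
  refine ⟨h1.1, ?_, fun y hy => ?_⟩
  · have h3 : h (ptr (fun y => h (y + g)) i + g) = h (0 + g) + e i := h1.2
    rw [h3, zero_add]
  · have h3 := h2 (y - g) ⟨hh.2 g y i (Or.inr hy), by rw [sub_add_cancel, zero_add]; exact hy⟩
    have h4 : key y = key (y - g) + key g := by
      rw [← hadd, sub_add_cancel]
    rw [hadd, h4]
    exact add_le_add_left h3 _

theorem t : StmPsi := by
  intro L rel T hT
  refine ⟨fun h => (fun i => code (ptr h i), T (h 0)), ?_, ?_⟩
  · intro h hh
    have hp : ∀ g i, toG (code (ptr (fun y => h (y + g)) i)) = ptr (fun y => h (y + g)) i :=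
      fun g i => toG_code (ptr_spec hh g i).1
    have h0 : (fun y => h (y + 0)) = h := by
      funext y
      rw [add_zero]
    have s0 : ∀ i, nn (ptr h i) ≤ 10 ∧ h (ptr h i) = h 0 + e i := by
      intro i
      have h1 := ptr_spec hh 0 i
      rw [h0, add_zero] at h1
      exact ⟨h1.1, h1.2.1⟩
    have hp0 : ∀ i, toG (code (ptr h i)) = ptr h i := fun i => toG_code (s0 i).1
    constructor
    · intro i j
      simp only [h0, hp0, hp]
      have h1 := ptr_spec hh (ptr h i) j
      have h2 := ptr_spec hh (ptr h j) i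
      rw [(s0 i).2] at h1
      rw [(s0 j).2] at h2
      obtain ⟨-, h1a, h1b⟩ := h1
      obtain ⟨-, h2a, h2b⟩ := h2
      rw [add_comm (ptr h i), add_comm (ptr h j)]
      have h3 : h 0 + e i + e j = h 0 + e j + e i := by abel
      rw [h3] at h1a h1b
      apply key_inj
      · exact le_antisymm (h1b _ h2a) (h2b _ h1a)
      · have h4 := hh.2 (ptr (fun y => h (y + ptr h j)) i + ptr h j)
          (ptr (fun y => h (y + ptr h i)) j + ptr h i) 0 (Or.inl (by rw [h1a, h2a]))
        omega
    · intro i
      simp only [h0, hp0, zero_add]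
      rw [(s0 i).2]
      exact hT (h 0) i
  · intro h h' q hq hTq
    have hz : nn (0 : G) ≤ 10 := by
      rw [nn_le]
      intro i
      simp
    have h1 : ∀ i, ptr h' i = ptr h i := by
      intro i
      rw [ptr, ptr]
      congr 1
      funext d
      apply propext
      constructor
      · rintro ⟨h2, h3⟩
        refine ⟨h2, ?_⟩
        rw [hq d h2, hq 0 hz] at h3
        have h4 : h d + q = h 0 + e i + q := by
          rw [h3]
          abel
        exact add_right_cancel h4
      · rintro ⟨h2, h3⟩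
        refine ⟨h2, ?_⟩
        rw [hq d h2, hq 0 hz, h3]
        abel
    simp only [h1, hq 0 hz, hTq]

end Pool.Agent.Y168.BC.Ps
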