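import Pool.Agent.Y817.BC.Stm

/-!
# The configuration of an odometer is Toeplitz
-/

set_option autoImplicit false

namespace Pool.Agent.Y168.BC.Tp

open Pool.Agent.Y817.BC

theorem hl_congr (D : Odo) {x x' z z' : ℤ} (h1 : D.lev x' = D.lev x) (h2 : D.lev z' = D.lev z)
    (h3 : D.ori x' = D.ori x) (h4 : D.ori z' = D.ori z)
    (h5 : D.sg x' (D.lev z) = D.sg x (D.lev z)) (h6 : D.sg z' (D.lev x) = D.sg z (D.lev x))
    (h7 : D.sg x' (D.lev z - 1) = D.sg x (D.lev z - 1))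
    (h8 : D.sg z' (D.lev x - 1) = D.sg z (D.lev x - 1)) : D.hl x' z' = D.hl x z := by
  simp only [Odo.hl, h1, h2, h3, h4, h5, h6, h7, h8]

theorem t : StmTToep := by
  intro D M P t
  obtain ⟨l, hl⟩ : ∃ l, l = D.lev (t 0) + D.lev (t 1) + D.lev (t 2) := ⟨_, rfl⟩
  obtain ⟨m0, hm0, h0⟩ := D.per (t 0) l
  obtain ⟨m1, hm1, h1⟩ := D.per (t 1) l
  obtain ⟨m2, hm2, h2⟩ := D.per (t 2) l
  refine ⟨m0 * m1 * m2, by positivity, fun q => ?_⟩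
  obtain ⟨t', ht'⟩ : ∃ t', t' = t + ((m0 * m1 * m2 : ℕ) : ℤ) • q := ⟨_, rfl⟩
  rw [← ht']
  have e0 : t' 0 = t 0 + m0 * ((m1 * m2) * q 0) := by
    rw [ht', Pi.add_apply, Pi.smul_apply, smul_eq_mul]
    push_cast
    ring
  have e1 : t' 1 = t 1 + m1 * ((m0 * m2) * q 1) := by
    rw [ht', Pi.add_apply, Pi.smul_apply, smul_eq_mul]
    push_cast
    ring
  have e2 : t' 2 = t 2 + m2 * ((m0 * m1) * q 2) := by
    rw [ht', Pi.add_apply, Pi.smul_apply, smul_eq_mul]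
    push_cast
    ring
  obtain ⟨a0, b0, c0⟩ := h0 ((m1 * m2) * q 0)
  obtain ⟨a1, b1, c1⟩ := h1 ((m0 * m2) * q 1)
  obtain ⟨a2, b2, c2⟩ := h2 ((m0 * m1) * q 2)
  rw [← e0] at a0 b0 c0
  rw [← e1] at a1 b1 c1
  rw [← e2] at a2 b2 c2
  have hA : D.hl (t' 0) (t' 2) = D.hl (t 0) (t 2) :=
    hl_congr D a0 a2 b0 b2 (c0 _ (by omega)).1 (c2 _ (by omega)).1 (c0 _ (by omega)).1
      (c2 _ (by omega)).1
  have hB : D.hl (t' 1) (t' 2) = D.hl (t 1) (t 2) :=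
    hl_congr D a1 a2 b1 b2 (c1 _ (by omega)).1 (c2 _ (by omega)).1 (c1 _ (by omega)).1
      (c2 _ (by omega)).1
  have p0 : D.pos (t' 0) (D.lev (t 2)) = D.pos (t 0) (D.lev (t 2)) := (c0 _ (by omega)).2
  have p1 : D.pos (t' 1) (D.lev (t 2)) = D.pos (t 1) (D.lev (t 2)) := (c1 _ (by omega)).2
  simp only [Odo.T, hA, hB, a0, a2, p0, p1]

end Pool.Agent.Y168.BC.Tp
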